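import Pool.Agent.QSX.StmtsB

/-! Row CLM of the squad QSX: climbing to the top root. -/

set_option autoImplicit false

namespace Pool.Agent.QSX.H2

open Matrix Finset

theorem clm (hBre : BreStmt) : ClmStmt := by
  intro X hX m C hbr htop
  obtain ⟨a, ha⟩ := hX.pos
  by_contra hcon
  push Not at hcon
  obtain ⟨l₀, hl₀⟩ := hcon
  classical
  obtain ⟨l, hl, hmax⟩ := Finset.exists_max_image (univ.filter fun l : hX.ι => C l = 0)
    (fun l => hX.rt l a) ⟨l₀, by simp [hl₀]⟩
  rw [mem_filter] at hl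
  have hlt : l ≠ hX.top (hX.comp l) := fun h => htop l (by rw [← h]; exact hl.2)
  obtain ⟨l', hne, hcomm⟩ := hX.climb l hlt
  rw [hBre X hX l l' hne.symm] at hcomm
  have h2 := hbr l l' hne.symm
  rw [hl.2, Matrix.zero_mul, Matrix.mul_zero, sub_zero] at h2
  unfold Dat.Split.br at hcomm h2
  set F := (hX.L l l').filter fun t => t.2.1 = 1 ∧ t.2.2.1 = 1 with hF
  have hmem : ∀ t ∈ F, t ∈ hX.L l l' ∧ t.2.1 = 1 ∧ t.2.2.1 = 1 := by
    intro t ht
    rw [hF, List.mem_filter] at ht
    exact ⟨ht.1, by simpa using ht.2⟩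
  have hrt : ∀ t ∈ F, hX.rt t.1 = hX.rt l + hX.rt l' := by
    intro t ht
    obtain ⟨h3, h4, h5⟩ := hmem t ht
    have h6 := (hX.L_rt l l' t h3).2.2
    rw [h4, h5] at h6
    simpa using h6
  have huniq : ∀ t ∈ F, ∀ t' ∈ F, t = t' := by
    intro t ht t' ht'
    have h3 : t.1 = t'.1 := by
      by_contra h4
      apply hX.nonprop t.1 t'.1 h4 1
      rw [hrt t ht, hrt t' ht', one_smul]
    exact List.inj_on_of_nodup_map (hX.L_nodup l l') (hmem t ht).1 (hmem t' ht').1 h3
  have hnd : F.Nodup := (hX.L_nodup l l').of_map.filter _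
  clear_value F
  rcases F with _ | ⟨t, F'⟩
  · apply hcomm
    simp
  · rcases F' with _ | ⟨t', F''⟩
    · simp only [List.map_cons, List.map_nil, List.sum_cons, List.sum_nil, add_zero] at hcomm h2
      have hc : ((t.2.2.2 : ℚ) : ℝ) ≠ 0 := by
        intro h0
        rw [h0, zero_smul] at hcomm
        exact hcomm rfl
      have h3 : C t.1 = 0 := (smul_eq_zero.1 h2.symm).resolve_left hc
      have h4 := hmax t.1 (by simp [h3])
      have h5 := hrt t (by simp)
      have h6 : hX.rt t.1 a = hX.rt l a + hX.rt l' a := by rw [h5]; rfl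
      have h7 := ha l'
      linarith
    · have h3 := huniq t (by simp) t' (by simp)
      rw [List.nodup_cons] at hnd
      exact hnd.1 (by rw [h3]; simp)

end Pool.Agent.QSX.H2
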