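import Pool.Agent.QSX.StmtsG

/-! Row PLN of the squad QSX: lengths of points. -/

set_option autoImplicit false

namespace Pool.Agent.QSX.H2

open Matrix Finset

theorem sz_nonneg {m : ℕ} (x : Matrix (Fin m) (Fin m) ℝ) : 0 ≤ sz x :=
  sum_nonneg fun _ _ => sum_nonneg fun _ _ => abs_nonneg _

theorem sz_add {m : ℕ} (x y : Matrix (Fin m) (Fin m) ℝ) : sz (x + y) ≤ sz x + sz y := by
  unfold sz
  rw [← sum_add_distrib]
  refine sum_le_sum fun i _ => ?_
  rw [← sum_add_distrib]
  exact sum_le_sum fun j _ => abs_add_le _ _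

theorem sz_neg {m : ℕ} (x : Matrix (Fin m) (Fin m) ℝ) : sz (-x) = sz x := by
  unfold sz
  simp

theorem sz_smul {m : ℕ} (c : ℝ) (x : Matrix (Fin m) (Fin m) ℝ) : sz (c • x) = |c| * sz x := by
  unfold sz
  simp only [Matrix.smul_apply, smul_eq_mul, abs_mul, mul_sum]

theorem sz_zero {m : ℕ} : sz (0 : Matrix (Fin m) (Fin m) ℝ) = 0 := by
  unfold sz
  simp

theorem sz_sum {m : ℕ} {ι : Type*} (s : Finset ι) (f : ι → Matrix (Fin m) (Fin m) ℝ) :
    sz (∑ i ∈ s, f i) ≤ ∑ i ∈ s, sz (f i) := by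
  classical
  induction s using Finset.induction_on with
  | empty => simp [sz_zero]
  | insert a s ha ih =>
    rw [sum_insert ha, sum_insert ha]
    exact (sz_add _ _).trans (by linarith)

theorem sz_mul {m : ℕ} (x y : Matrix (Fin m) (Fin m) ℝ) : sz (x * y) ≤ sz x * sz y := by
  have h1 : ∀ i, ∑ j, |(x * y) i j| ≤ ∑ k, |x i k| * sz y := by
    intro i
    calc ∑ j, |(x * y) i j| ≤ ∑ j, ∑ k, |x i k| * |y k j| := by
          refine sum_le_sum fun j _ => ?_
          rw [mul_apply]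
          refine (abs_sum_le_sum_abs _ _).trans (le_of_eq ?_)
          exact sum_congr rfl fun k _ => abs_mul _ _
      _ = ∑ k, |x i k| * ∑ j, |y k j| := by
          rw [sum_comm]
          exact sum_congr rfl fun k _ => (mul_sum _ _ _).symm
      _ ≤ ∑ k, |x i k| * sz y := by
          refine sum_le_sum fun k _ => mul_le_mul_of_nonneg_left ?_ (abs_nonneg _)
          exact single_le_sum (f := fun k => ∑ j, |y k j|)
            (fun k _ => sum_nonneg fun _ _ => abs_nonneg _) (mem_univ k)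
  unfold sz at h1 ⊢
  calc ∑ i, ∑ j, |(x * y) i j| ≤ ∑ i, ∑ k, |x i k| * ∑ i, ∑ j, |y i j| :=
        sum_le_sum fun i _ => h1 i
    _ = _ := by
        rw [sum_mul]
        exact sum_congr rfl fun i _ => (sum_mul _ _ _).symm

theorem sz_one {m : ℕ} : sz (1 : Matrix (Fin m) (Fin m) ℝ) = m := by
  unfold sz
  have : ∀ i : Fin m, ∑ j, |(1 : Matrix (Fin m) (Fin m) ℝ) i j| = 1 := by
    intro i
    rw [sum_eq_single i]
    · simp
    · intro j _ hj
      rw [one_apply_ne hj.symm, abs_zero]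
    · simp
  simp [this]

theorem sz_pow {m : ℕ} (A : Matrix (Fin m) (Fin m) ℝ) {T : ℝ} (hT : sz A ≤ T) (k : ℕ) :
    sz (A ^ k) ≤ (m + 1) * T ^ k := by
  have hT0 : 0 ≤ T := (sz_nonneg A).trans hT
  induction k with
  | zero => rw [pow_zero, pow_zero, sz_one]; linarith
  | succ k ih =>
    rw [pow_succ, pow_succ]
    calc sz (A ^ k * A) ≤ sz (A ^ k) * sz A := sz_mul _ _
      _ ≤ ((m + 1) * T ^ k) * T := mul_le_mul ih hT (sz_nonneg _) (by positivity)
      _ = _ := by ring

theorem sz_poly {m : ℕ} (A : Matrix (Fin m) (Fin m) ℝ) {T : ℝ} (hT : sz A ≤ T) (h1 : 1 ≤ T)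
    (a : ℕ → ℝ) (ha : ∀ k, |a k| ≤ 1) :
    sz (∑ k ∈ range (m + 1), a k • A ^ k) ≤ (m + 1) ^ 2 * T ^ m := by
  calc sz (∑ k ∈ range (m + 1), a k • A ^ k) ≤ ∑ k ∈ range (m + 1), sz (a k • A ^ k) :=
        sz_sum _ _
    _ ≤ ∑ k ∈ range (m + 1), (m + 1) * T ^ m := by
        refine sum_le_sum fun k hk => ?_
        rw [sz_smul]
        have h2 := sz_pow A hT k
        have h3 : T ^ k ≤ T ^ m := pow_le_pow_right₀ h1 (by have := mem_range.1 hk; omega)
        calc |a k| * sz (A ^ k) ≤ 1 * ((m + 1) * T ^ k) :=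
              mul_le_mul (ha k) h2 (sz_nonneg _) (by norm_num)
          _ ≤ (m + 1) * T ^ m := by rw [one_mul]; gcongr
    _ = _ := by rw [sum_const, card_range, nsmul_eq_mul]; push_cast; ring

theorem mexp_diag {m : ℕ} {x : Matrix (Fin m) (Fin m) ℝ} (hx : SU x) (i : Fin m) :
    mexp x i i = 1 := by
  unfold mexp
  rw [Matrix.sum_apply, sum_eq_single 0]
  · simp
  · intro k _ hk
    rw [Matrix.smul_apply, hx.pow_apply k i i (by omega), smul_zero]
  · simp

theorem sz_mexp {m : ℕ} (x : Matrix (Fin m) (Fin m) ℝ) :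
    sz (mexp x) ≤ (m + 1) ^ 2 * (1 + sz x) ^ m := by
  unfold mexp
  refine sz_poly x (by linarith) (by linarith [sz_nonneg x]) _ fun k => ?_
  rw [abs_inv, abs_of_nonneg (by positivity)]
  exact inv_le_one_of_one_le₀ (by exact_mod_cast Nat.factorial_pos k)

theorem ud_val {m : ℕ} (c : Fin m → ℝ) :
    ((ud c : (Matrix (Fin m) (Fin m) ℝ)ˣ) : Matrix (Fin m) (Fin m) ℝ) =
      diagonal fun i => Real.exp (c i) := rfl

theorem ud_inv_val {m : ℕ} (c : Fin m → ℝ) :
    (((ud c)⁻¹ : (Matrix (Fin m) (Fin m) ℝ)ˣ) : Matrix (Fin m) (Fin m) ℝ) =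
      diagonal fun i => Real.exp (-c i) := rfl

theorem sz_diagonal {m : ℕ} (d : Fin m → ℝ) : sz (diagonal d) = ∑ i, |d i| := by
  unfold sz
  refine sum_congr rfl fun i _ => ?_
  rw [sum_eq_single i]
  · simp
  · intro j _ hj
    rw [diagonal_apply_ne _ hj.symm, abs_zero]
  · simp

theorem pln (hNrm : NrmStmt) (hLen : LenStmt) (hLgm : LgmStmt) : PlnStmt := by
  intro m
  rcases Nat.eq_zero_or_pos m with h0 | hm
  · subst h0
    refine ⟨1, one_pos, fun x c _ => ?_⟩
    obtain ⟨h1, -, -, -, -, h6⟩ := hLen 0 (ue x * ud c) 1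
    have hc : ‖c‖ = 0 := by rw [Subsingleton.elim c 0, norm_zero]
    have hs : sz x = 0 := by simp [sz]
    rw [hc, hs, h6 rfl]
    norm_num
  have hm1 : (1 : ℝ) ≤ m := by exact_mod_cast hm
  set a : ℝ := Real.log (2 * (m + 1) ^ 2) with ha
  set b : ℝ := Real.log (2 * (m + 1) ^ 3) with hb
  have hp2 : (1 : ℝ) ≤ ((m : ℝ) + 1) ^ 2 := one_le_pow₀ (by linarith)
  have hp3 : (1 : ℝ) ≤ ((m : ℝ) + 1) ^ 3 := one_le_pow₀ (by linarith)
  have ha0 : 0 ≤ a := Real.log_nonneg (by linarith)
  have hb0 : 0 ≤ b := Real.log_nonneg (by linarith)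
  refine ⟨2 * a + m * b + 2 * m + b + 1, by positivity, fun x c hx => ?_⟩
  set g := ue x * ud c with hg
  obtain ⟨hl0, hlinv, -, hent, -, -⟩ := hLen m g 1
  -- diagonal entries
  have hgii : ∀ i, (g : Matrix (Fin m) (Fin m) ℝ) i i = Real.exp (c i) := by
    intro i
    rw [hg, Units.val_mul, ue_val hx, ud_val, mul_diagonal, mexp_diag hx, one_mul]
  have hgii' : ∀ i, ((g⁻¹ : (Matrix (Fin m) (Fin m) ℝ)ˣ) : Matrix (Fin m) (Fin m) ℝ) i i =
      Real.exp (-c i) := by
    intro i
    rw [hg, _root_.mul_inv_rev, Units.val_mul, ue_inv_val hx, ud_inv_val, diagonal_mul,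
      mexp_diag hx.neg, mul_one]
  have h1 : ‖c‖ ≤ len g := by
    rw [pi_norm_le_iff_of_nonneg hl0]
    intro i
    rw [Real.norm_eq_abs, abs_le]
    constructor
    · have h2 := (hLen m g⁻¹ 1).2.2.2.1 i i
      rw [hlinv, hgii', Real.abs_exp, Real.exp_le_exp] at h2
      linarith
    · have h2 := hent i i
      rw [hgii, Real.abs_exp, Real.exp_le_exp] at h2
      exact h2
  -- length of the diagonal part
  have hsd : ∀ d : Fin m → ℝ, ‖d‖ ≤ ‖c‖ → sz (diagonal fun i => Real.exp (d i)) ≤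
      m * Real.exp ‖c‖ := by
    intro d hd
    rw [sz_diagonal]
    calc ∑ i, |Real.exp (d i)| ≤ ∑ _i : Fin m, Real.exp ‖c‖ := by
          refine sum_le_sum fun i _ => ?_
          rw [Real.abs_exp, Real.exp_le_exp]
          exact (le_abs_self _).trans ((norm_le_pi_norm d i).trans hd)
      _ = _ := by simp
  have hud : len (ud c) ≤ Real.log m + ‖c‖ := by
    refine ((hLen m (ud c) 1).2.2.2.2.1 hm).trans ?_
    rw [← Real.log_exp ‖c‖, ← Real.log_mul (by linarith) (Real.exp_pos _).ne']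
    have h2 := hsd c le_rfl
    have h3 := hsd (fun i => -c i) (by rw [show (fun i => -c i) = -c from rfl, norm_neg])
    rw [ud_val, ud_inv_val]
    have h4 : 0 < max (sz (diagonal fun i => Real.exp (c i)))
        (sz (diagonal fun i => Real.exp (-c i))) := by
      refine lt_max_of_lt_left ?_
      rw [sz_diagonal]
      have : Nonempty (Fin m) := ⟨⟨0, hm⟩⟩
      exact sum_pos (fun i _ => abs_pos.2 (Real.exp_pos _).ne') univ_nonempty
    exact Real.log_le_log h4 (max_le h2 h3)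
  have hlogm : Real.log m ≤ b := by
    refine Real.log_le_log (by linarith) ?_
    have h2 : (m : ℝ) ≤ (m + 1) ^ 3 := by
      have h3 : (m + 1 : ℝ) ≤ (m + 1) ^ 3 := le_self_pow₀ (by linarith) (by norm_num)
      linarith
    have h4 : (0 : ℝ) ≤ (m + 1) ^ 3 := by positivity
    linarith
  refine ⟨h1, ?_, ?_⟩
  · -- `x` is a polynomial in `exp x`
    have h2 : len (ue x) ≤ len g + len (ud c) := by
      have e : ue x = g * (ud c)⁻¹ := by rw [hg, mul_inv_cancel_right]
      have h3 := (hLen m g (ud c)⁻¹).2.2.1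
      rw [← e, (hLen m (ud c) 1).2.1] at h3
      exact h3
    have h3 : len (ue x) ≤ 2 * len g + Real.log m := by linarith
    have h4 : sz (mexp x) ≤ m ^ 3 * Real.exp (2 * len g) := by
      have h5 : ∀ i j, |mexp x i j| ≤ m * Real.exp (2 * len g) := by
        intro i j
        have h6 := (hLen m (ue x) 1).2.2.2.1 i j
        rw [ue_val hx] at h6
        refine h6.trans ?_
        calc Real.exp (len (ue x)) ≤ Real.exp (2 * len g + Real.log m) := Real.exp_le_exp.2 h3
          _ = m * Real.exp (2 * len g) := by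
              rw [Real.exp_add, Real.exp_log (by linarith)]; ring
      unfold sz
      calc ∑ i, ∑ j, |mexp x i j| ≤ ∑ _i : Fin m, ∑ _j : Fin m, m * Real.exp (2 * len g) :=
            sum_le_sum fun i _ => sum_le_sum fun j _ => h5 i j
        _ = _ := by simp; ring
    set T : ℝ := 2 * (m + 1) ^ 3 * Real.exp (2 * len g) with hT
    have he1 : 1 ≤ Real.exp (2 * len g) := Real.one_le_exp (by linarith)
    have hm3 : (m : ℝ) ^ 3 + m ≤ 2 * (m + 1) ^ 3 := by nlinarith [sq_nonneg (m : ℝ)]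
    have hT1 : 1 ≤ T := by
      have : (1 : ℝ) ≤ 2 * (m + 1) ^ 3 := by nlinarith [sq_nonneg (m : ℝ)]
      calc (1 : ℝ) = 1 * 1 := by ring
        _ ≤ T := mul_le_mul this he1 (by norm_num) (by positivity)
    have h5 : sz (mexp x - 1) ≤ T := by
      rw [sub_eq_add_neg]
      refine (sz_add _ _).trans ?_
      rw [sz_neg, sz_one]
      calc sz (mexp x) + m ≤ m ^ 3 * Real.exp (2 * len g) + m * Real.exp (2 * len g) := by
            refine add_le_add h4 ?_
            nlinarith
        _ = (m ^ 3 + m) * Real.exp (2 * len g) := by ring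
        _ ≤ T := mul_le_mul_of_nonneg_right hm3 (Real.exp_pos _).le
    have h6 : sz x ≤ (m + 1) ^ 2 * T ^ m := by
      have h7 := ((hLgm ℝ m).1 x hx).2
      rw [← h7]
      unfold mlog
      refine sz_poly (mexp x - 1) h5 hT1 (fun k => (-1 : ℝ) ^ (k + 1) / (k : ℝ)) fun k => ?_
      rw [abs_div, abs_pow, abs_neg, abs_one, one_pow, Nat.abs_cast]
      rcases Nat.eq_zero_or_pos k with hk | hk
      · rw [hk]; norm_num
      · exact div_le_one_of_le₀ (by exact_mod_cast hk) (by positivity)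
    have hTm : 1 ≤ T ^ m := one_le_pow₀ hT1
    have h7 : 1 + sz x ≤ 2 * (m + 1) ^ 2 * T ^ m := by
      have : (1 : ℝ) ≤ (m + 1) ^ 2 * T ^ m := by
        calc (1 : ℝ) = 1 * 1 := by ring
          _ ≤ _ := mul_le_mul (by nlinarith) hTm (by norm_num) (by positivity)
      linarith
    calc Real.log (1 + sz x) ≤ Real.log (2 * (m + 1) ^ 2 * T ^ m) :=
          Real.log_le_log (by linarith [sz_nonneg x]) h7
      _ = a + m * (b + 2 * len g) := by
          rw [Real.log_mul (by positivity) (by positivity), Real.log_pow, hT,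
            Real.log_mul (by positivity) (Real.exp_pos _).ne', Real.log_exp]
      _ ≤ (2 * a + m * b + 2 * m + b + 1) * (len g + 1) := by
          nlinarith [mul_nonneg ha0 hl0, mul_nonneg hb0 hl0,
            mul_nonneg (mul_nonneg (by linarith : (0 : ℝ) ≤ m) hb0) hl0]
  · have h2 : len g ≤ len (ue x) + len (ud c) := (hLen m (ue x) (ud c)).2.2.1
    have hs0 := sz_nonneg x
    have h3 : len (ue x) ≤ a + m * Real.log (1 + sz x) := by
      refine ((hLen m (ue x) 1).2.2.2.2.1 hm).trans ?_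
      rw [ue_val hx, ue_inv_val hx]
      have h4 := sz_mexp x
      have h5 := sz_mexp (-x)
      rw [sz_neg] at h5
      have h6 : 0 < max (sz (mexp x)) (sz (mexp (-x))) := by
        refine lt_max_of_lt_left ?_
        have : Nonempty (Fin m) := ⟨⟨0, hm⟩⟩
        have h7 : |mexp x ⟨0, hm⟩ ⟨0, hm⟩| ≤ sz (mexp x) := by
          unfold sz
          refine le_trans ?_ (single_le_sum (f := fun i => ∑ j, |mexp x i j|)
            (fun k _ => sum_nonneg fun _ _ => abs_nonneg _) (mem_univ (⟨0, hm⟩ : Fin m)))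
          exact single_le_sum (f := fun j => |mexp x ⟨0, hm⟩ j|)
            (fun k _ => abs_nonneg _) (mem_univ (⟨0, hm⟩ : Fin m))
        rw [mexp_diag hx, abs_one] at h7
        linarith
      have h8 : (m + 1) ^ 2 * (1 + sz x) ^ m ≤ 2 * (m + 1) ^ 2 * (1 + sz x) ^ m := by
        have : 0 ≤ ((m : ℝ) + 1) ^ 2 * (1 + sz x) ^ m := by positivity
        linarith
      calc Real.log (max (sz (mexp x)) (sz (mexp (-x))))
          ≤ Real.log (2 * (m + 1) ^ 2 * (1 + sz x) ^ m) :=
            Real.log_le_log h6 ((max_le h4 h5).trans h8)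
        _ = a + m * Real.log (1 + sz x) := by
            rw [Real.log_mul (by positivity) (by positivity), Real.log_pow]
    have hlog0 : 0 ≤ Real.log (1 + sz x) := Real.log_nonneg (by linarith)
    calc len g ≤ a + m * Real.log (1 + sz x) + (b + ‖c‖) := by linarith
      _ ≤ ‖c‖ + (2 * a + m * b + 2 * m + b + 1) * (Real.log (1 + sz x) + 1) := by
          nlinarith [mul_nonneg ha0 hlog0, mul_nonneg hb0 hlog0,
            mul_nonneg (by linarith : (0 : ℝ) ≤ m) hlog0,
            mul_nonneg (by linarith : (0 : ℝ) ≤ m) hb0,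
            mul_nonneg (mul_nonneg (by linarith : (0 : ℝ) ≤ m) hb0) hlog0]

end Pool.Agent.QSX.H2
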